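import Mathlib
import Pool.Agent.Lib.MP_5b7fe5_co.Lower

set_option autoImplicit false

open Pool.Agent.Lib.MP_5b7fe5_co

namespace Pool.Agent.Results.MP_5b7fe5_co.LogLowerBound

theorem result (t : ℕ) (ht : 2 ≤ t) :
    (∀ n : ℕ, 1 ≤ n → Real.logb t n ≤ ldim t n) ∧ ∀ k : ℕ, ldim t (t ^ k) = k := by
  have h1 : ∀ n : ℕ, 1 ≤ n → Real.logb t n ≤ ldim t n := by
    intro n hn
    exact le_csInf (ach_big n t ht) (fun M hM => ach_logb hn ht M hM)
  refine ⟨h1, fun k => le_antisymm ?_ ?_⟩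
  · refine csInf_le ⟨0, fun M hM => ach_nonneg (Nat.one_le_pow k t (by omega)) M hM⟩ ?_
    have := ach_pow (ach_base t) k
    rwa [mul_one] at this
  · have h2 := h1 (t ^ k) (Nat.one_le_pow k t (by omega))
    refine le_trans (le_of_eq ?_) h2
    have ht1 : (1 : ℝ) < t := by exact_mod_cast ht
    push_cast
    rw [Real.logb_pow, Real.logb_self_eq_one ht1, mul_one]

end Pool.Agent.Results.MP_5b7fe5_co.LogLowerBound
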