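import Mathlib
import Pool.Agent.Lib.MP_5b7fe5_co.Two
import Pool.Agent.Lib.MP_5b7fe5_co.Upper

set_option autoImplicit false

open Pool.Agent.Lib.MP_5b7fe5_co

namespace Pool.Agent.Results.MP_5b7fe5_co.TwoExact

theorem result (n : ℕ) (hn : 2 ≤ n) :
    ldim 2 n = (Nat.log 2 n : ℝ) + ((n : ℝ) - 2 ^ Nat.log 2 n) / ((n / 2 : ℕ) : ℝ) := by
  set k := Nat.log 2 n with hk
  have hk1 : 2 ^ k ≤ n := Nat.pow_log_le_self 2 (by omega)
  have hk2 : n < 2 ^ (k + 1) := Nat.lt_pow_succ_log_self (by norm_num) n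
  have hk3 : 1 ≤ k := by
    by_contra hcon
    have : k = 0 := by omega
    rw [this] at hk2
    norm_num at hk2
    omega
  set m := n / 2 with hm
  have hm1 : 1 ≤ m := by omega
  have hm0 : (0 : ℝ) < (m : ℕ) := by exact_mod_cast hm1
  have hp : 2 ^ (k + 1) = 2 * 2 ^ k := by rw [pow_succ]; ring
  obtain ⟨r, hr⟩ := Nat.exists_eq_add_of_le hk1
  have hrm : r ≤ m := by omega
  have hrr : (n : ℝ) - 2 ^ k = r := by
    rw [hr]
    push_cast
    ring
  refine le_antisymm ?_ ?_
  · refine csInf_le ⟨0, ?_⟩ ?_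
    · rintro M ⟨w, ⟨hw0, _, _⟩, hl⟩
      refine le_trans ?_ (hl ⟨0, by omega⟩)
      refine Finset.sum_nonneg fun f _ => ?_
      split_ifs
      · exact le_rfl
      · exact hw0 f
    · rw [hrr]
      exact upper_two n m k r hm1 (by omega) hrm hr
  · refine le_csInf ⟨_, upper_two n m k r hm1 (by omega) hrm hr⟩ ?_
    intro M hM
    rcases Nat.even_or_odd' n with ⟨j, hj | hj⟩
    · -- even
      have hjm : j = m := by omega
      have h1 := lower_all n k hk1 M hM
      have hn2 : (n : ℝ) = 2 * (m : ℕ) := by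
        rw [← hjm]
        exact_mod_cast hj
      rw [hn2] at h1 ⊢
      rw [← sub_nonneg]
      have h2 : (M * (2 * (m : ℝ)) - (((k : ℝ) + 2) * (2 * m) - 2 ^ (k + 1))) / (2 * m)
          = M - ((k : ℝ) + (2 * (m : ℝ) - 2 ^ k) / m) := by
        rw [pow_succ]
        field_simp
        ring
      rw [← h2]
      apply div_nonneg <;> linarith
    · -- odd
      have hjm : j = m := by omega
      subst hj
      rw [hjm] at hM
      have h0 : 2 ^ (k - 1) ≤ m := by
        have : 2 ^ k = 2 * 2 ^ (k - 1) := by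
          conv_lhs => rw [show k = (k - 1) + 1 by omega, pow_succ]
          ring
        omega
      have h1 := lower_odd m (k - 1) h0 M hM
      rw [show k - 1 + 1 = k by omega] at h1
      have hkc : ((k - 1 : ℕ) : ℝ) = (k : ℝ) - 1 := by
        rw [Nat.cast_sub hk3]
        simp
      rw [hkc] at h1
      have hn2 : ((2 * j + 1 : ℕ) : ℝ) = 2 * (m : ℝ) + 1 := by
        rw [hjm]
        push_cast
        ring
      rw [hn2]
      rw [← sub_nonneg]
      have h2 : (M * m - (((k : ℝ) - 1 + 3) * m + 1 - 2 ^ k)) / m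
          = M - ((k : ℝ) + (2 * (m : ℝ) + 1 - 2 ^ k) / m) := by
        field_simp
        ring
      rw [← h2]
      apply div_nonneg <;> linarith

end Pool.Agent.Results.MP_5b7fe5_co.TwoExact
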